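import Pool.Agent.Q211.BR.Bound

/-!
# The conjectured formula for the asymptotic Rényi entropies of branching random walks fails
for every order `α` in `[0, 1)`
-/

set_option autoImplicit false

open MeasureTheory ProbabilityTheory Filter Topology
open scoped ENNReal

namespace Pool.Agent.Results.MP_96db20_pr.RenyiFormulaFails

open Pool.Agent.Q211.BR

universe u

/-- Existence of branching random walks. -/
theorem exists_brw {G : Type} [Group G] [MeasurableSpace G] (μ : PMF G) (π : PMF ℕ) :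
    ∃ (Ω : Type) (_ : MeasurableSpace Ω) (P : Measure Ω) (N : List ℕ → Ω → ℕ)
      (ζ : List ℕ → Ω → G), IsBRW μ π P N ζ := by
  refine ⟨List ℕ → ℕ × G, inferInstance,
    Measure.infinitePi fun _ : List ℕ => π.toMeasure.prod μ.toMeasure,
    fun v ω => (ω v).1, fun v ω => (ω v).2, ?_⟩
  refine ⟨inferInstance, fun v => measurable_fst.comp (measurable_pi_apply v),
    fun v => measurable_snd.comp (measurable_pi_apply v), fun v => ?_, ?_⟩
  · exact Measure.infinitePi_map_eval (fun _ : List ℕ => π.toMeasure.prod μ.toMeasure) v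
  · exact iIndepFun_infinitePi (P := fun _ : List ℕ => π.toMeasure.prod μ.toMeasure)
      (X := fun _ p => p) (fun _ => measurable_id)

/-- The choice of the parameters. -/
theorem exists_params {α β : ℝ} (h0 : 0 ≤ α) (hβ : α < β) (hβ1 : β < 1) :
    ∃ (K : ℕ) (x : ℝ), 0 < x ∧ K * x < 1 ∧ 2 ≤ K * x ^ α ∧
      (1 - K * x) ^ β + K * x ^ β < 2 ^ (1 - β) := by
  have hlim : ∀ a : ℝ, 0 < a → Tendsto (fun x : ℝ => x ^ a) (𝓝[>] 0) (𝓝 0) := by
    intro a ha
    have h := (Real.continuousAt_rpow_const 0 a (Or.inr ha.le)).tendsto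
    rw [Real.zero_rpow ha.ne'] at h
    exact h.mono_left nhdsWithin_le_nhds
  have hx : Tendsto (fun x : ℝ => x) (𝓝[>] 0) (𝓝 0) := tendsto_id.mono_left nhdsWithin_le_nhds
  have h1 : Tendsto (fun x : ℝ => 2 * x ^ (1 - α) + x) (𝓝[>] 0) (𝓝 (2 * 0 + 0)) :=
    ((hlim _ (by linarith)).const_mul 2).add hx
  have h2 : Tendsto (fun x : ℝ => 1 + (2 * x ^ (β - α) + x ^ β)) (𝓝[>] 0)
      (𝓝 (1 + (2 * 0 + 0))) :=
    (((hlim _ (by linarith)).const_mul 2).add (hlim _ (by linarith))).const_add 1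
  have h3 : (1 : ℝ) + (2 * 0 + 0) < 2 ^ (1 - β) := by
    rw [mul_zero, add_zero, add_zero]
    exact Real.one_lt_rpow (by norm_num) (by linarith)
  have h4 : (2 : ℝ) * 0 + 0 < 1 := by norm_num
  obtain ⟨x, ⟨hx1, hx2⟩, hx0⟩ := ((h1.eventually (gt_mem_nhds h4)).and
    (h2.eventually (gt_mem_nhds h3)) |>.and self_mem_nhdsWithin).exists
  have hx0 : 0 < x := hx0
  have hK1 : 2 * x ^ (-α) ≤ (⌈2 * x ^ (-α)⌉₊ : ℝ) := Nat.le_ceil _
  have hK2 : (⌈2 * x ^ (-α)⌉₊ : ℝ) ≤ 2 * x ^ (-α) + 1 :=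
    (Nat.ceil_lt_add_one (by positivity)).le
  have he : ∀ a : ℝ, x ^ (-α) * x ^ a = x ^ (a - α) := by
    intro a
    rw [← Real.rpow_add hx0]
    congr 1
    ring
  refine ⟨⌈2 * x ^ (-α)⌉₊, x, hx0, ?_, ?_, ?_⟩
  · calc (⌈2 * x ^ (-α)⌉₊ : ℝ) * x ≤ (2 * x ^ (-α) + 1) * x := by gcongr
      _ = 2 * (x ^ (-α) * x ^ (1 : ℝ)) + x := by rw [Real.rpow_one]; ring
      _ < 1 := by rw [he]; exact hx1
  · calc (2 : ℝ) = 2 * (x ^ (-α) * x ^ α) := by rw [he, sub_self, Real.rpow_zero]; ring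
      _ = 2 * x ^ (-α) * x ^ α := by ring
      _ ≤ _ := by gcongr
  · have h5 : (1 - (⌈2 * x ^ (-α)⌉₊ : ℝ) * x) ^ β ≤ 1 := by
      refine Real.rpow_le_one ?_ ?_ (by linarith)
      · have : (⌈2 * x ^ (-α)⌉₊ : ℝ) * x ≤ 1 := by
          calc (⌈2 * x ^ (-α)⌉₊ : ℝ) * x ≤ (2 * x ^ (-α) + 1) * x := by gcongr
            _ = 2 * (x ^ (-α) * x ^ (1 : ℝ)) + x := by rw [Real.rpow_one]; ring
            _ ≤ 1 := by rw [he]; exact hx1.le
        linarith
      · have : 0 ≤ (⌈2 * x ^ (-α)⌉₊ : ℝ) * x := by positivity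
        linarith
    have h6 : (⌈2 * x ^ (-α)⌉₊ : ℝ) * x ^ β ≤ 2 * x ^ (β - α) + x ^ β := by
      calc (⌈2 * x ^ (-α)⌉₊ : ℝ) * x ^ β ≤ (2 * x ^ (-α) + 1) * x ^ β := by gcongr
        _ = 2 * (x ^ (-α) * x ^ β) + x ^ β := by ring
        _ = _ := by rw [he]
    linarith

/-- The law of the letters. -/
noncomputable def letter (K : ℕ) (x : ℝ) (hx : 0 < x) (hK : K * x < 1) : PMF (Fin (K + 1)) :=
  PMF.ofFintype (fun i => if i = 0 then ENNReal.ofReal (1 - K * x) else ENNReal.ofReal x) (by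
    rw [Fin.sum_univ_succ, if_pos rfl]
    simp only [Fin.succ_ne_zero, if_false]
    rw [Finset.sum_const, Finset.card_univ, Fintype.card_fin, nsmul_eq_mul,
      ← ENNReal.ofReal_natCast, ← ENNReal.ofReal_mul (by positivity),
      ← ENNReal.ofReal_add (by linarith) (by positivity)]
    simp)

theorem powSum_letter (K : ℕ) (x : ℝ) (hx : 0 < x) (hK : K * x < 1) (γ : ℝ) :
    powSum γ (letter K x hx hK) = ENNReal.ofReal ((1 - K * x) ^ γ + K * x ^ γ) := by
  unfold powSum letter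
  rw [tsum_fintype, Fin.sum_univ_succ]
  simp only [PMF.ofFintype_apply, Fin.succ_ne_zero, if_false, if_true]
  have h1 : ENNReal.ofReal (1 - K * x) ≠ 0 := by
    rw [Ne, ENNReal.ofReal_eq_zero]
    linarith
  have h2 : ENNReal.ofReal x ≠ 0 := by
    rw [Ne, ENNReal.ofReal_eq_zero]
    linarith
  rw [if_neg h1, if_neg h2, Finset.sum_const, Finset.card_univ, Fintype.card_fin, nsmul_eq_mul,
    ENNReal.ofReal_rpow_of_pos (by linarith), ENNReal.ofReal_rpow_of_pos hx,
    ← ENNReal.ofReal_natCast, ← ENNReal.ofReal_mul (by positivity),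
    ← ENNReal.ofReal_add (Real.rpow_nonneg (by linarith) _) (by positivity)]

/-- For every order `α` in `[0, 1)` there are an infinite finitely generated group `G`, a finitely
supported step law `μ` and an offspring law `π` on `{1, 2, ...}` with mean `ρ > 1` and finite second
moment such that the asymptotic Rényi entropy `h = h(α, μ)` exists but almost surely
`H(α, M̂_n) / n` is eventually bounded by a constant `c` smaller than the conjectured limit
(`log ρ` if `ρ ≤ e^h`, and `h` otherwise). -/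
theorem result (α : ℝ) (hα0 : 0 ≤ α) (hα1 : α < 1) :
    ∃ (G : Type) (_ : Group G) (_ : MeasurableSpace G) (μ : PMF G) (π : PMF ℕ) (ρ h c : ℝ),
      Infinite G ∧ Group.FG G ∧ DiscreteMeasurableSpace G ∧ μ.support.Finite ∧ π 0 = 0 ∧
      Summable (fun k : ℕ => (k : ℝ) ^ 2 * (π k).toReal) ∧
      HasSum (fun k : ℕ => (k : ℝ) * (π k).toReal) ρ ∧ 1 < ρ ∧
      Tendsto (fun n : ℕ => renyi α (convPow μ n) / n) atTop (𝓝 h) ∧
      c < (if ρ ≤ Real.exp h then Real.log ρ else h) ∧
      (∃ (Ω : Type) (_ : MeasurableSpace Ω) (P : Measure Ω) (N : List ℕ → Ω → ℕ)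
        (ζ : List ℕ → Ω → G), IsBRW μ π P N ζ) ∧
      ∀ (Ω : Type u) [MeasurableSpace Ω] (P : Measure Ω) (N : List ℕ → Ω → ℕ)
        (ζ : List ℕ → Ω → G), IsBRW μ π P N ζ →
        ∀ᵐ ω ∂P, ∀ᶠ n : ℕ in atTop,
          renyi α (emp (fun v => N v ω) (fun v => ζ v ω) n) / n ≤ c := by
  obtain ⟨β, hαβ, hβ1⟩ := exists_between hα1
  have hβ0 : 0 < β := lt_of_le_of_lt hα0 hαβ
  obtain ⟨K, x, hx, hK, hs1, hs2⟩ := exists_params hα0 hαβ hβ1
  set p := letter K x hx hK with hp
  set sα : ℝ := (1 - K * x) ^ α + K * x ^ α with hsα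
  set sβ : ℝ := (1 - K * x) ^ β + K * x ^ β with hsβ
  have hsα2 : 2 ≤ sα := by
    have : 0 ≤ (1 - K * x) ^ α := Real.rpow_nonneg (by linarith) _
    linarith
  have hsβ0 : 0 ≤ sβ := by
    have : 0 ≤ (1 - K * x) ^ β := Real.rpow_nonneg (by linarith) _
    positivity
  have hq : max 1 ((2 : ℝ) ^ (β - α) * sβ) < 2 ^ (1 - α) := by
    refine max_lt (Real.one_lt_rpow (by norm_num) (by linarith)) ?_
    calc (2 : ℝ) ^ (β - α) * sβ < 2 ^ (β - α) * 2 ^ (1 - β) := by gcongr
      _ = 2 ^ (1 - α) := by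
        rw [← Real.rpow_add (by norm_num)]
        congr 1
        ring
  obtain ⟨r, hr1, hr2⟩ := exists_between hq
  have hr1' : 1 < r := lt_of_le_of_lt (le_max_left _ _) hr1
  have hr1'' : (2 : ℝ) ^ (β - α) * sβ < r := lt_of_le_of_lt (le_max_right _ _) hr1
  have h1α : 0 < 1 - α := by linarith
  have hlogr : Real.log r < (1 - α) * Real.log 2 := by
    rw [← Real.log_rpow (by norm_num)]
    exact Real.log_lt_log (by linarith) hr2
  have hpα : (powSum α p).toReal = sα := by
    rw [hp, powSum_letter, ENNReal.toReal_ofReal (by linarith)]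
  have hlim := renyi_lim α p
  rw [hpα] at hlim
  refine ⟨FreeGroup (Fin (K + 1)), inferInstance, ⊤, p.map FreeGroup.of, PMF.pure 2, 2,
    (1 / (1 - α)) * Real.log sα, (1 / (1 - α)) * Real.log r, ?_, inferInstance, ?_, ?_, ?_, ?_,
    ?_, one_lt_two, hlim, ?_, ?_, ?_⟩
  · exact Infinite.of_injective emb emb_inj
  · exact @DiscreteMeasurableSpace.mk _ ⊤ (fun _ => trivial)
  · rw [PMF.support_map]
    exact (Set.toFinite _).image _
  · rw [PMF.pure_apply, if_neg (by norm_num)]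
  · refine summable_of_ne_finset_zero (s := {2}) fun k hk => ?_
    rw [Finset.mem_singleton] at hk
    rw [PMF.pure_apply, if_neg hk]
    simp
  · have h := hasSum_single (f := fun k : ℕ => (k : ℝ) * ((PMF.pure 2 : PMF ℕ) k).toReal) 2
      (fun k hk => by
        rw [PMF.pure_apply, if_neg hk]
        simp)
    simpa using h
  · have h2 : (2 : ℝ) ≤ Real.exp ((1 / (1 - α)) * Real.log sα) := by
      rw [← Real.log_le_iff_le_exp (by norm_num)]
      have h3 : Real.log 2 ≤ Real.log sα := Real.log_le_log (by norm_num) hsα2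
      have h4 : 0 < Real.log 2 := Real.log_pos (by norm_num)
      have h5 : 1 ≤ 1 / (1 - α) := by
        rw [le_div_iff₀ h1α]
        linarith
      calc Real.log 2 = 1 * Real.log 2 := (one_mul _).symm
        _ ≤ (1 / (1 - α)) * Real.log sα := by gcongr
    rw [if_pos h2, one_div, inv_mul_lt_iff₀ h1α]
    exact hlogr
  · let _ : MeasurableSpace (FreeGroup (Fin (K + 1))) := ⊤
    exact exists_brw _ _
  · intro Ω _ P N ζ hB
    let _ : MeasurableSpace (FreeGroup (Fin (K + 1))) := ⊤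
    have : DiscreteMeasurableSpace (FreeGroup (Fin (K + 1))) :=
      @DiscreteMeasurableSpace.mk _ ⊤ (fun _ => trivial)
    have : Countable (FreeGroup (Fin (K + 1))) := FreeGroup.toWord_injective.countable
    have hE := IsBRW.eventually_le (α := α) (β := β) (s := ENNReal.ofReal sβ)
      (r := ENNReal.ofReal r) hB hβ0 hβ1.le hαβ (fun n => by
        rw [powSum_convPow, hp, powSum_letter]) (by
        rw [show (2 : ℝ≥0∞) = ENNReal.ofReal 2 by simp,
          ENNReal.ofReal_rpow_of_pos (by norm_num), ← ENNReal.ofReal_mul (by positivity)]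
        exact (ENNReal.ofReal_lt_ofReal_iff (by linarith)).2 hr1'') ENNReal.ofReal_ne_top
    filter_upwards [hE] with ω hω
    filter_upwards [hω, eventually_gt_atTop 0] with n hn hn0
    have hn0' : (0 : ℝ) < n := by exact_mod_cast hn0
    rw [div_le_iff₀ hn0']
    unfold renyi
    rw [mul_assoc]
    refine mul_le_mul_of_nonneg_left ?_ (by positivity)
    have h1 : (powSum α (emp (fun v => N v ω) (fun v => ζ v ω) n)).toReal ≤ r ^ n := by
      have h2 := ENNReal.toReal_mono (by finiteness) hn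
      rwa [ENNReal.toReal_pow, ENNReal.toReal_ofReal (by linarith)] at h2
    have h3 : Real.log r * n = Real.log (r ^ n) := by
      rw [Real.log_pow, mul_comm]
    rw [h3]
    rcases (ENNReal.toReal_nonneg (a := powSum α
      (emp (fun v => N v ω) (fun v => ζ v ω) n))).eq_or_lt' with h0 | h0
    · rw [h0, Real.log_zero]
      exact Real.log_nonneg (one_le_pow₀ hr1'.le)
    · exact Real.log_le_log h0 h1

end Pool.Agent.Results.MP_96db20_pr.RenyiFormulaFails
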